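import Pool.Agent.H474.RZ.Stm

/-!
# Project RZ (helper474), task WIN: the mean square of the kernel in windows
-/

set_option autoImplicit false

open Complex MeasureTheory Filter Topology
open Pool.Agent.H474.RZ

namespace Pool.Agent.H51.RZ474.WIN

/-- the square of the norm on the ray -/
noncomputable def N (k : ℕ) (θ σ v : ℝ) : ℝ := ‖Pk k ((Real.pi * v : ℝ) * ((θ : ℂ) + σ * I))‖ ^ 2

lemma N_nonneg (k : ℕ) (θ σ v : ℝ) : 0 ≤ N k θ σ v := by unfold N; positivity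

lemma re_ray (θ σ v : ℝ) : (((Real.pi * v : ℝ) : ℂ) * ((θ : ℂ) + σ * I)).re = Real.pi * v * θ := by
  rw [re_ofReal_mul]; simp

lemma continuousOn_N (k : ℕ) {θ : ℝ} (hθ : 0 < θ) (σ : ℝ) : ContinuousOn (N k θ σ) (Set.Ioi 0) := by
  intro v hv
  have hv' : 0 < v := hv
  have hre : 0 < (((Real.pi * v : ℝ) : ℂ) * ((θ : ℂ) + σ * I)).re := by
    rw [re_ray]; positivity
  have h1 : ContinuousAt (Pool.Agent.Helper242.RK.P k) (((Real.pi * v : ℝ) : ℂ) * ((θ : ℂ) + σ * I)) :=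
    (Pool.Agent.Helper242.RK.hasDerivAt_P k hre).continuousAt
  have h2 : ContinuousAt (fun v : ℝ => ((Real.pi * v : ℝ) : ℂ) * ((θ : ℂ) + σ * I)) v := by fun_prop
  have h3 : ContinuousAt (fun v : ℝ => Pool.Agent.Helper242.RK.P k
      (((Real.pi * v : ℝ) : ℂ) * ((θ : ℂ) + σ * I))) v :=
    ContinuousAt.comp (f := fun v : ℝ => ((Real.pi * v : ℝ) : ℂ) * ((θ : ℂ) + σ * I)) h1 h2
  exact (h3.norm.pow 2).continuousWithinAt

lemma intervalIntegrable_N (k : ℕ) {θ : ℝ} (hθ : 0 < θ) (σ : ℝ) {a b : ℝ} (ha : 0 < a) (hb : 0 < b) :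
    IntervalIntegrable (N k θ σ) volume a b := by
  apply ContinuousOn.intervalIntegrable
  refine (continuousOn_N k hθ σ).mono fun x hx => ?_
  have : min a b ≤ x := hx.1
  exact lt_of_lt_of_le (lt_min ha hb) this

/-- the kernel on the ray -/
lemma PhC_eq (δ t : ℝ) : PhC (t + al δ * I) = 2 * cexp (((t : ℂ) + al δ * I) / 2) *
    Pool.Agent.Helper242.RK.g (((Real.pi * Real.exp (2 * t) : ℝ) : ℂ) *
      ((Real.sin (2 * δ) : ℝ) + (Real.cos (2 * δ) : ℝ) * I)) := by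
  have e : PhC (t + al δ * I) = 2 * (cexp (((t : ℂ) + al δ * I) / 2) *
      Pool.Agent.Helper242.RK.g (Real.pi * cexp (4 * (((t : ℂ) + al δ * I) / 2)))) := rfl
  rw [e]
  have h1 : cexp (4 * (((t : ℂ) + al δ * I) / 2)) = ((Real.exp (2 * t) : ℝ) : ℂ) *
      ((Real.sin (2 * δ) : ℝ) + (Real.cos (2 * δ) : ℝ) * I) := by
    have h2 : 4 * (((t : ℂ) + al δ * I) / 2) = ((2 * t : ℝ) : ℂ) + ((Real.pi / 2 - 2 * δ : ℝ) : ℂ) * I := by
      unfold al; push_cast; ring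
    rw [h2, Complex.exp_add, Complex.exp_mul_I, ← Complex.ofReal_cos, ← Complex.ofReal_sin,
      Real.cos_pi_div_two_sub, Real.sin_pi_div_two_sub, Complex.ofReal_exp]
  rw [h1]
  push_cast
  ring_nf

lemma norm_PhC_sq (δ t : ℝ) : ‖PhC (t + al δ * I)‖ ^ 2 = 4 * Real.exp t *
    ‖Pool.Agent.Helper242.RK.g (((Real.pi * Real.exp (2 * t) : ℝ) : ℂ) *
      ((Real.sin (2 * δ) : ℝ) + (Real.cos (2 * δ) : ℝ) * I))‖ ^ 2 := by
  rw [PhC_eq, norm_mul, norm_mul, Complex.norm_exp]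
  have h1 : (((t : ℂ) + al δ * I) / 2).re = t / 2 := by simp
  rw [h1]
  simp only [norm_ofNat]
  have h2 : Real.exp t = Real.exp (t / 2) ^ 2 := by
    rw [← Real.exp_nat_mul]; congr 1; push_cast; ring
  rw [h2]; ring

lemma norm_ray (δ : ℝ) {v : ℝ} (hv : 0 ≤ v) : ‖((Real.pi * v : ℝ) : ℂ) *
      ((Real.sin (2 * δ) : ℝ) + (Real.cos (2 * δ) : ℝ) * I)‖ = Real.pi * v := by
  rw [norm_mul, norm_real, Real.norm_of_nonneg (by positivity)]
  have h1 : ‖(((Real.sin (2 * δ) : ℝ) : ℂ) + (Real.cos (2 * δ) : ℝ) * I)‖ = 1 := by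
    rw [Complex.norm_add_mul_I, Real.sin_sq_add_cos_sq, Real.sqrt_one]
  rw [h1, mul_one]

lemma norm_g_sq_le (s : ℂ) : ‖Pool.Agent.Helper242.RK.g s‖ ^ 2 ≤
    8 * ‖s‖ ^ 4 * ‖Pk 2 s‖ ^ 2 + 18 * ‖s‖ ^ 2 * ‖Pk 1 s‖ ^ 2 := by
  unfold Pool.Agent.Helper242.RK.g
  set x : ℂ := 2 * s ^ 2 * Pool.Agent.Helper242.RK.P 2 s with hx
  set y : ℂ := 3 * s * Pool.Agent.Helper242.RK.P 1 s with hy
  have e1 : ‖x‖ = 2 * ‖s‖ ^ 2 * ‖Pk 2 s‖ := by rw [hx, norm_mul, norm_mul, norm_pow]; simp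
  have e2 : ‖y‖ = 3 * ‖s‖ * ‖Pk 1 s‖ := by rw [hy, norm_mul, norm_mul]; simp
  have h := norm_sub_le x y
  have h0 := norm_nonneg (x - y)
  have h3 : ‖x - y‖ ^ 2 ≤ 2 * ‖x‖ ^ 2 + 2 * ‖y‖ ^ 2 := by
    nlinarith [sq_nonneg (‖x‖ - ‖y‖), norm_nonneg x, norm_nonneg y]
  rw [e1, e2] at h3
  nlinarith [h3]

lemma norm_g_sq_ge (s : ℂ) : 2 * ‖s‖ ^ 4 * ‖Pk 2 s‖ ^ 2 - 9 * ‖s‖ ^ 2 * ‖Pk 1 s‖ ^ 2 ≤
    ‖Pool.Agent.Helper242.RK.g s‖ ^ 2 := by
  unfold Pool.Agent.Helper242.RK.g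
  set x : ℂ := 2 * s ^ 2 * Pool.Agent.Helper242.RK.P 2 s with hx
  set y : ℂ := 3 * s * Pool.Agent.Helper242.RK.P 1 s with hy
  have e1 : ‖x‖ = 2 * ‖s‖ ^ 2 * ‖Pk 2 s‖ := by rw [hx, norm_mul, norm_mul, norm_pow]; simp
  have e2 : ‖y‖ = 3 * ‖s‖ * ‖Pk 1 s‖ := by rw [hy, norm_mul, norm_mul]; simp
  have h : ‖x‖ ≤ ‖x - y‖ + ‖y‖ := by
    have := norm_add_le (x - y) y
    simpa using this
  have h0 := norm_nonneg (x - y)
  have h3 : ‖x‖ ^ 2 / 2 - ‖y‖ ^ 2 ≤ ‖x - y‖ ^ 2 := by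
    nlinarith [sq_nonneg (‖x - y‖ - ‖y‖), norm_nonneg x, norm_nonneg y]
  rw [e1, e2] at h3
  nlinarith [h3]

lemma F_le (δ t : ℝ) : ‖PhC (t + al δ * I)‖ ^ 2 ≤
    (16 * Real.pi ^ 4 * Real.exp (7 * t) * N 2 (Real.sin (2 * δ)) (Real.cos (2 * δ)) (Real.exp (2 * t)) +
      36 * Real.pi ^ 2 * Real.exp (3 * t) * N 1 (Real.sin (2 * δ)) (Real.cos (2 * δ)) (Real.exp (2 * t))) *
      (2 * Real.exp (2 * t)) := by
  rw [norm_PhC_sq]
  have h := norm_g_sq_le (((Real.pi * Real.exp (2 * t) : ℝ) : ℂ) *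
      ((Real.sin (2 * δ) : ℝ) + (Real.cos (2 * δ) : ℝ) * I))
  rw [norm_ray δ (Real.exp_pos _).le] at h
  have h2 := mul_le_mul_of_nonneg_left h (by positivity : 0 ≤ 4 * Real.exp t)
  refine h2.trans (le_of_eq ?_)
  unfold N
  have e7 : Real.exp (7 * t) = Real.exp t ^ 7 := by rw [← Real.exp_nat_mul]; norm_num
  have e3 : Real.exp (3 * t) = Real.exp t ^ 3 := by rw [← Real.exp_nat_mul]; norm_num
  have e2 : Real.exp (2 * t) = Real.exp t ^ 2 := by rw [← Real.exp_nat_mul]; norm_num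
  rw [e7, e3, e2]
  ring

lemma F_ge (δ t : ℝ) :
    (4 * Real.pi ^ 4 * Real.exp (7 * t) * N 2 (Real.sin (2 * δ)) (Real.cos (2 * δ)) (Real.exp (2 * t)) -
      18 * Real.pi ^ 2 * Real.exp (3 * t) * N 1 (Real.sin (2 * δ)) (Real.cos (2 * δ)) (Real.exp (2 * t))) *
      (2 * Real.exp (2 * t)) ≤ ‖PhC (t + al δ * I)‖ ^ 2 := by
  rw [norm_PhC_sq]
  have h := norm_g_sq_ge (((Real.pi * Real.exp (2 * t) : ℝ) : ℂ) *
      ((Real.sin (2 * δ) : ℝ) + (Real.cos (2 * δ) : ℝ) * I))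
  rw [norm_ray δ (Real.exp_pos _).le] at h
  have h2 := mul_le_mul_of_nonneg_left h (by positivity : 0 ≤ 4 * Real.exp t)
  refine le_trans (le_of_eq ?_) h2
  unfold N
  have e7 : Real.exp (7 * t) = Real.exp t ^ 7 := by rw [← Real.exp_nat_mul]; norm_num
  have e3 : Real.exp (3 * t) = Real.exp t ^ 3 := by rw [← Real.exp_nat_mul]; norm_num
  have e2 : Real.exp (2 * t) = Real.exp t ^ 2 := by rw [← Real.exp_nat_mul]; norm_num
  rw [e7, e3, e2]
  ring

/-- the substitution `v = exp (2 t)` -/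
lemma subst_exp {q : ℝ → ℝ} (hq : ContinuousOn q (Set.Ioi 0)) (a b : ℝ) :
    (∫ t in a..b, q (Real.exp (2 * t)) * (2 * Real.exp (2 * t))) =
      ∫ v in (Real.exp (2 * a))..(Real.exp (2 * b)), q v := by
  have h := intervalIntegral.integral_comp_mul_deriv' (a := a) (b := b)
    (f := fun t : ℝ => Real.exp (2 * t)) (f' := fun t : ℝ => 2 * Real.exp (2 * t)) (g := q) ?_ ?_ ?_
  · exact h
  · intro x _
    have h1 := ((hasDerivAt_id x).const_mul (2 : ℝ)).exp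
    refine h1.congr_deriv ?_
    simp only [id]
    ring
  · fun_prop
  · refine hq.mono ?_
    rintro _ ⟨x, -, rfl⟩
    exact Real.exp_pos _

lemma continuous_F {δ : ℝ} (h0 : 0 < δ) (h1 : δ ≤ Real.pi / 8) :
    Continuous (fun t : ℝ => ‖PhC (t + al δ * I)‖ ^ 2) := by
  have hth : 0 < Real.sin (2 * δ) := Real.sin_pos_of_pos_of_lt_pi (by positivity) (by linarith [Real.pi_pos])
  have h : Continuous (fun t : ℝ => Pool.Agent.Helper242.RK.g (((Real.pi * Real.exp (2 * t) : ℝ) : ℂ) *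
      ((Real.sin (2 * δ) : ℝ) + (Real.cos (2 * δ) : ℝ) * I))) := by
    rw [continuous_iff_continuousAt]
    intro t
    have hre : 0 < ((((Real.pi * Real.exp (2 * t) : ℝ) : ℂ) *
      ((Real.sin (2 * δ) : ℝ) + (Real.cos (2 * δ) : ℝ) * I))).re := by
      rw [re_ray]; positivity
    have c1 := (Pool.Agent.Helper242.RK.differentiableAt_g hre).continuousAt
    have c2 : ContinuousAt (fun t : ℝ => (((Real.pi * Real.exp (2 * t) : ℝ) : ℂ) *
      ((Real.sin (2 * δ) : ℝ) + (Real.cos (2 * δ) : ℝ) * I))) t := by fun_prop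
    exact ContinuousAt.comp (f := fun t : ℝ => (((Real.pi * Real.exp (2 * t) : ℝ) : ℂ) *
      ((Real.sin (2 * δ) : ℝ) + (Real.cos (2 * δ) : ℝ) * I))) c1 c2
  have h2 : (fun t : ℝ => ‖PhC (t + al δ * I)‖ ^ 2) = fun t : ℝ => 4 * Real.exp t *
    ‖Pool.Agent.Helper242.RK.g (((Real.pi * Real.exp (2 * t) : ℝ) : ℂ) *
      ((Real.sin (2 * δ) : ℝ) + (Real.cos (2 * δ) : ℝ) * I))‖ ^ 2 := funext fun t => norm_PhC_sq δ t
  rw [h2]
  exact (continuous_const.mul Real.continuous_exp).mul (h.norm.pow 2)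

/-- evenness -/
lemma F_even {δ : ℝ} (h0 : 0 < δ) (h1 : δ ≤ Real.pi / 8) (t : ℝ) :
    ‖PhC (((-t : ℝ) : ℂ) + al δ * I)‖ ^ 2 = ‖PhC (t + al δ * I)‖ ^ 2 := by
  have hm : ((t : ℂ) + al δ * I) / 2 ∈ Pool.Agent.Helper242.RK.S := by
    have him : (((t : ℂ) + al δ * I) / 2).im = al δ / 2 := by simp
    simp only [Pool.Agent.Helper242.RK.S, Set.mem_ofPred_eq, him]
    unfold al
    rw [abs_lt]
    constructor <;> linarith [Real.pi_pos]
  have e1 : (((-t : ℝ) : ℂ) + al δ * I) / 2 = -((starRingEnd ℂ) (((t : ℂ) + al δ * I) / 2)) := by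
    simp [map_ofNat]
    ring
  have hm2 : (starRingEnd ℂ) (((t : ℂ) + al δ * I) / 2) ∈ Pool.Agent.Helper242.RK.S := by
    simp only [Pool.Agent.Helper242.RK.S, Set.mem_ofPred_eq, conj_im, abs_neg] at hm ⊢
    exact hm
  have e2 : PhC (((-t : ℝ) : ℂ) + al δ * I) = 2 * Pool.Agent.Helper242.RK.PhiC
      ((((-t : ℝ) : ℂ) + al δ * I) / 2) := rfl
  have e3 : PhC ((t : ℂ) + al δ * I) = 2 * Pool.Agent.Helper242.RK.PhiC
      (((t : ℂ) + al δ * I) / 2) := rfl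
  rw [e2, e3, e1, Pool.Agent.Helper242.RK.PhiC_even hm2, Pool.Agent.Helper242.RK.conj_PhiC, norm_mul,
    norm_mul, RCLike.norm_conj]

/-- reflection of windows -/
lemma F_refl {δ : ℝ} (h0 : 0 < δ) (h1 : δ ≤ Real.pi / 8) (a b : ℝ) :
    (∫ t in a..b, ‖PhC (t + al δ * I)‖ ^ 2) = ∫ t in (-b)..(-a), ‖PhC (t + al δ * I)‖ ^ 2 := by
  have h := intervalIntegral.integral_comp_neg (a := a) (b := b)
    (fun t : ℝ => ‖PhC (t + al δ * I)‖ ^ 2)
  rw [← h]
  refine intervalIntegral.integral_congr fun t _ => ?_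
  exact (F_even h0 h1 t).symm

/-- the upper estimate through the mean squares on the ray -/
lemma F_int_le {δ : ℝ} (h0 : 0 < δ) (h1 : δ ≤ Real.pi / 8) {a b : ℝ} (hab : a ≤ b) :
    (∫ t in a..b, ‖PhC (t + al δ * I)‖ ^ 2) ≤
      16 * Real.pi ^ 4 * Real.exp (7 * b) * (∫ v in (Real.exp (2 * a))..(Real.exp (2 * b)),
        N 2 (Real.sin (2 * δ)) (Real.cos (2 * δ)) v) +
      36 * Real.pi ^ 2 * Real.exp (3 * b) * (∫ v in (Real.exp (2 * a))..(Real.exp (2 * b)),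
        N 1 (Real.sin (2 * δ)) (Real.cos (2 * δ)) v) := by
  have hth : 0 < Real.sin (2 * δ) := Real.sin_pos_of_pos_of_lt_pi (by positivity) (by linarith [Real.pi_pos])
  set θ := Real.sin (2 * δ) with hθ
  set σ := Real.cos (2 * δ) with hσ
  set A := 16 * Real.pi ^ 4 * Real.exp (7 * b) with hA
  set B := 36 * Real.pi ^ 2 * Real.exp (3 * b) with hB
  have hq : ContinuousOn (fun v => A * N 2 θ σ v + B * N 1 θ σ v) (Set.Ioi 0) :=
    (continuousOn_const.mul (continuousOn_N 2 hth σ)).add (continuousOn_const.mul (continuousOn_N 1 hth σ))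
  have hs := subst_exp hq a b
  rw [intervalIntegral.integral_add ((intervalIntegrable_N 2 hth σ (Real.exp_pos _) (Real.exp_pos _)).const_mul A)
    ((intervalIntegrable_N 1 hth σ (Real.exp_pos _) (Real.exp_pos _)).const_mul B),
    intervalIntegral.integral_const_mul, intervalIntegral.integral_const_mul] at hs
  rw [← hs]
  have hc : Continuous (fun t => (A * N 2 θ σ (Real.exp (2 * t)) + B * N 1 θ σ (Real.exp (2 * t))) *
      (2 * Real.exp (2 * t))) := by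
    have h2 : Continuous (fun t => A * N 2 θ σ (Real.exp (2 * t)) + B * N 1 θ σ (Real.exp (2 * t))) := by
      rw [← continuousOn_univ]
      exact ContinuousOn.comp (f := fun t : ℝ => Real.exp (2 * t)) hq
        (by fun_prop) (fun t _ => Real.exp_pos _)
    exact h2.mul (by fun_prop)
  refine intervalIntegral.integral_mono_on hab ((continuous_F h0 h1).intervalIntegrable _ _)
    (hc.intervalIntegrable _ _) fun t ht => ?_
  refine (F_le δ t).trans ?_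
  have n2 := N_nonneg 2 θ σ (Real.exp (2 * t))
  have n1 := N_nonneg 1 θ σ (Real.exp (2 * t))
  have htb : t ≤ b := ht.2
  refine mul_le_mul_of_nonneg_right ?_ (by positivity)
  refine add_le_add ?_ ?_
  · rw [hA]; gcongr
  · rw [hB]; gcongr

/-- the lower estimate through the mean squares on the ray -/
lemma F_int_ge {δ : ℝ} (h0 : 0 < δ) (h1 : δ ≤ Real.pi / 8) {a b : ℝ} (ha : 0 ≤ a) (hab : a ≤ b) :
      4 * Real.pi ^ 4 * (∫ v in (Real.exp (2 * a))..(Real.exp (2 * b)),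
        N 2 (Real.sin (2 * δ)) (Real.cos (2 * δ)) v) -
      18 * Real.pi ^ 2 * Real.exp (3 * b) * (∫ v in (Real.exp (2 * a))..(Real.exp (2 * b)),
        N 1 (Real.sin (2 * δ)) (Real.cos (2 * δ)) v) ≤
    (∫ t in a..b, ‖PhC (t + al δ * I)‖ ^ 2) := by
  have hth : 0 < Real.sin (2 * δ) := Real.sin_pos_of_pos_of_lt_pi (by positivity) (by linarith [Real.pi_pos])
  set θ := Real.sin (2 * δ) with hθ
  set σ := Real.cos (2 * δ) with hσ
  set A := 4 * Real.pi ^ 4 with hA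
  set B := 18 * Real.pi ^ 2 * Real.exp (3 * b) with hB
  have hq : ContinuousOn (fun v => A * N 2 θ σ v - B * N 1 θ σ v) (Set.Ioi 0) :=
    (continuousOn_const.mul (continuousOn_N 2 hth σ)).sub (continuousOn_const.mul (continuousOn_N 1 hth σ))
  have hs := subst_exp hq a b
  rw [intervalIntegral.integral_sub ((intervalIntegrable_N 2 hth σ (Real.exp_pos _) (Real.exp_pos _)).const_mul A)
    ((intervalIntegrable_N 1 hth σ (Real.exp_pos _) (Real.exp_pos _)).const_mul B),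
    intervalIntegral.integral_const_mul, intervalIntegral.integral_const_mul] at hs
  rw [← hs]
  have hc : Continuous (fun t => (A * N 2 θ σ (Real.exp (2 * t)) - B * N 1 θ σ (Real.exp (2 * t))) *
      (2 * Real.exp (2 * t))) := by
    have h2 : Continuous (fun t => A * N 2 θ σ (Real.exp (2 * t)) - B * N 1 θ σ (Real.exp (2 * t))) := by
      rw [← continuousOn_univ]
      exact ContinuousOn.comp (f := fun t : ℝ => Real.exp (2 * t)) hq
        (by fun_prop) (fun t _ => Real.exp_pos _)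
    exact h2.mul (by fun_prop)
  refine intervalIntegral.integral_mono_on hab (hc.intervalIntegrable _ _)
    ((continuous_F h0 h1).intervalIntegrable _ _) fun t ht => ?_
  refine le_trans ?_ (F_ge δ t)
  have n2 := N_nonneg 2 θ σ (Real.exp (2 * t))
  have n1 := N_nonneg 1 θ σ (Real.exp (2 * t))
  have htb : t ≤ b := ht.2
  have hta : a ≤ t := ht.1
  refine mul_le_mul_of_nonneg_right ?_ (by positivity)
  refine sub_le_sub ?_ ?_
  · rw [hA]
    refine mul_le_mul_of_nonneg_right ?_ n2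
    have : 1 ≤ Real.exp (7 * t) := Real.one_le_exp (by linarith)
    nlinarith [pow_pos Real.pi_pos 4]
  · rw [hB]; gcongr

lemma theta_bounds {δ : ℝ} (h0 : 0 < δ) (h1 : δ ≤ Real.pi / 8) :
    δ ≤ Real.sin (2 * δ) ∧ Real.sin (2 * δ) ≤ 2 * δ ∧ 1 / 2 ≤ Real.cos (2 * δ) := by
  have hpi := Real.pi_pos
  have hpi4 := Real.pi_le_four
  refine ⟨?_, Real.sin_le (by positivity), ?_⟩
  · have h := Real.mul_le_sin (x := 2 * δ) (by positivity) (by linarith)
    refine le_trans ?_ h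
    rw [div_mul_eq_mul_div, le_div_iff₀ hpi]
    nlinarith
  · have h := Real.cos_le_cos_of_nonneg_of_le_pi (x := 2 * δ) (y := Real.pi / 3) (by positivity)
      (by linarith) (by linarith)
    rw [Real.cos_pi_div_three] at h
    exact h

/-- bound of a diagonal sum on the ray -/
lemma rpow_ray {δ θ v q C D : ℝ} (h0 : 0 < δ) (hδθ : δ ≤ θ) (hv : 0 < v) (hq : 0 ≤ q) (hC : 0 < C)
    (hD : D ≤ C * (2 * Real.pi * θ * v) ^ (-q)) : D ≤ C * (δ ^ (-q) * v ^ (-q)) := by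
  refine hD.trans (mul_le_mul_of_nonneg_left ?_ hC.le)
  rw [← Real.mul_rpow h0.le hv.le]
  refine Real.rpow_le_rpow_of_nonpos (by positivity) ?_ (by linarith)
  have : 3 < Real.pi := Real.pi_gt_three
  have h2 : δ * v ≤ θ * v := mul_le_mul_of_nonneg_right hδθ hv.le
  have h3 : 0 < θ * v := by have := h0.trans_le hδθ; positivity
  nlinarith

/-- the mean squares on the ray, upper bounds -/
lemma ms_upper (hS : S_SUM) (hM : S_MV) : ∃ K : ℝ, 0 < K ∧ ∀ δ a b : ℝ, 0 < δ → δ ≤ Real.pi / 8 → a ≤ b →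
    (∫ v in (Real.exp (2 * a))..(Real.exp (2 * b)), N 2 (Real.sin (2 * δ)) (Real.cos (2 * δ)) v) ≤
      K * ((Real.exp (2 * b) - Real.exp (2 * a)) * (δ ^ (-(9 / 2) : ℝ) * Real.exp (-(9 * a))) +
        δ ^ (-(17 / 4) : ℝ) * Real.exp (-(17 / 2 * a))) ∧
    (∫ v in (Real.exp (2 * a))..(Real.exp (2 * b)), N 1 (Real.sin (2 * δ)) (Real.cos (2 * δ)) v) ≤
      K * ((Real.exp (2 * b) - Real.exp (2 * a)) * (δ ^ (-(5 / 2) : ℝ) * Real.exp (-(5 * a))) +
        δ ^ (-(9 / 4) : ℝ) * Real.exp (-(9 / 2 * a))) := by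
  obtain ⟨C, hC, hMV⟩ := hM
  obtain ⟨C1, hC1, h1⟩ := hS.1 8 (by norm_num)
  obtain ⟨C2, hC2, h2⟩ := hS.1 (15 / 2) (by norm_num)
  obtain ⟨C3, hC3, h3⟩ := hS.1 4 (by norm_num)
  obtain ⟨C4, hC4, h4⟩ := hS.1 (7 / 2) (by norm_num)
  refine ⟨C1 + C * C2 + C3 + C * C4, by positivity, fun δ a b h0 hδ hab => ?_⟩
  obtain ⟨ht1, ht2, ht3⟩ := theta_bounds h0 hδ
  have hθ : 0 < Real.sin (2 * δ) := h0.trans_le ht1
  have hv0 : 0 < Real.exp (2 * a) := Real.exp_pos _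
  have hvv : Real.exp (2 * a) ≤ Real.exp (2 * b) := Real.exp_le_exp.2 (by linarith)
  have hx : 0 < 2 * Real.pi * Real.sin (2 * δ) * Real.exp (2 * a) := by positivity
  have hd : 0 ≤ Real.exp (2 * b) - Real.exp (2 * a) := sub_nonneg.2 hvv
  have hexp : ∀ q : ℝ, Real.exp (2 * a) ^ (-q) = Real.exp (-(2 * q * a)) := by
    intro q; rw [← Real.exp_mul]; congr 1; ring
  have g1 := rpow_ray (q := 9 / 2) (D := Dg 8 (2 * Real.pi * Real.sin (2 * δ) * Real.exp (2 * a)))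
    h0 ht1 hv0 (by norm_num) hC1
    (by have := (h1 _ hx).2; rw [show ((8 : ℝ) + 1) / 2 = 9 / 2 by norm_num] at this; exact this)
  have g2 := rpow_ray (q := 17 / 4) (D := Dg (15 / 2) (2 * Real.pi * Real.sin (2 * δ) * Real.exp (2 * a)))
    h0 ht1 hv0 (by norm_num) hC2
    (by have := (h2 _ hx).2; rw [show ((15 / 2 : ℝ) + 1) / 2 = 17 / 4 by norm_num] at this; exact this)
  have g3 := rpow_ray (q := 5 / 2) (D := Dg 4 (2 * Real.pi * Real.sin (2 * δ) * Real.exp (2 * a)))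
    h0 ht1 hv0 (by norm_num) hC3
    (by have := (h3 _ hx).2; rw [show ((4 : ℝ) + 1) / 2 = 5 / 2 by norm_num] at this; exact this)
  have g4 := rpow_ray (q := 9 / 4) (D := Dg (7 / 2) (2 * Real.pi * Real.sin (2 * δ) * Real.exp (2 * a)))
    h0 ht1 hv0 (by norm_num) hC4
    (by have := (h4 _ hx).2; rw [show ((7 / 2 : ℝ) + 1) / 2 = 9 / 4 by norm_num] at this; exact this)
  rw [hexp, show 2 * (9 / 2 : ℝ) * a = 9 * a by ring] at g1
  rw [hexp, show 2 * (17 / 4 : ℝ) * a = 17 / 2 * a by ring] at g2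
  rw [hexp, show 2 * (5 / 2 : ℝ) * a = 5 * a by ring] at g3
  rw [hexp, show 2 * (9 / 4 : ℝ) * a = 9 / 2 * a by ring] at g4
  have m2 := (hMV 2 (Real.sin (2 * δ)) (Real.cos (2 * δ)) (Real.exp (2 * a)) (Real.exp (2 * b)) hθ ht3 hv0 hvv).2
  have m1 := (hMV 1 (Real.sin (2 * δ)) (Real.cos (2 * δ)) (Real.exp (2 * a)) (Real.exp (2 * b)) hθ ht3 hv0 hvv).2
  rw [show (4 * ((2 : ℕ) : ℝ)) = 8 by norm_num, show (8 - 1 / 2 : ℝ) = 15 / 2 by norm_num] at m2
  rw [show (4 * ((1 : ℕ) : ℝ)) = 4 by norm_num, show (4 - 1 / 2 : ℝ) = 7 / 2 by norm_num] at m1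
  have p1 : 0 < δ ^ (-(9 / 2) : ℝ) * Real.exp (-(9 * a)) := by positivity
  have p2 : 0 < δ ^ (-(17 / 4) : ℝ) * Real.exp (-(17 / 2 * a)) := by positivity
  have p3 : 0 < δ ^ (-(5 / 2) : ℝ) * Real.exp (-(5 * a)) := by positivity
  have p4 : 0 < δ ^ (-(9 / 4) : ℝ) * Real.exp (-(9 / 2 * a)) := by positivity
  set X1 := δ ^ (-(9 / 2) : ℝ) * Real.exp (-(9 * a)) with hX1
  set X2 := δ ^ (-(17 / 4) : ℝ) * Real.exp (-(17 / 2 * a)) with hX2
  set X3 := δ ^ (-(5 / 2) : ℝ) * Real.exp (-(5 * a)) with hX3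
  set X4 := δ ^ (-(9 / 4) : ℝ) * Real.exp (-(9 / 2 * a)) with hX4
  set d := Real.exp (2 * b) - Real.exp (2 * a) with hd'
  constructor
  · refine m2.trans ?_
    have e1 := mul_le_mul_of_nonneg_left g1 hd
    have e2 := mul_le_mul_of_nonneg_left g2 hC.le
    have q1 : 0 ≤ d * X1 := mul_nonneg hd p1.le
    have q2 : 0 ≤ C * C2 * (d * X1) := by positivity
    have q3 : 0 ≤ C3 * (d * X1) := by positivity
    have q4 : 0 ≤ C * C4 * (d * X1) := by positivity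
    have q5 : 0 ≤ C1 * X2 := by positivity
    have q6 : 0 ≤ C3 * X2 := by positivity
    have q7 : 0 ≤ C * C4 * X2 := by positivity
    nlinarith [e1, e2, q1, q2, q3, q4, q5, q6, q7]
  · refine m1.trans ?_
    have e1 := mul_le_mul_of_nonneg_left g3 hd
    have e2 := mul_le_mul_of_nonneg_left g4 hC.le
    have q1 : 0 ≤ d * X3 := mul_nonneg hd p3.le
    have q2 : 0 ≤ C * C2 * (d * X3) := by positivity
    have q3 : 0 ≤ C1 * (d * X3) := by positivity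
    have q4 : 0 ≤ C * C4 * (d * X3) := by positivity
    have q5 : 0 ≤ C1 * X4 := by positivity
    have q6 : 0 ≤ C3 * X4 := by positivity
    have q7 : 0 ≤ C * C2 * X4 := by positivity
    nlinarith [e1, e2, q1, q2, q3, q4, q5, q6, q7]

lemma exp_sub_le {a b : ℝ} : Real.exp b - Real.exp a ≤ (b - a) * Real.exp b := by
  have h := Real.add_one_le_exp (a - b)
  have h2 : Real.exp a = Real.exp (a - b) * Real.exp b := by rw [← Real.exp_add]; congr 1; ring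
  have h3 := Real.exp_pos b
  nlinarith

/-- upper bound for windows in the right half-line -/
lemma upper_right (hS : S_SUM) (hM : S_MV) : ∃ C : ℝ, 0 < C ∧ ∀ δ a η : ℝ, 0 < δ → δ ≤ Real.pi / 8 →
    0 < η → η ≤ 1 → 0 ≤ a →
    (∫ t in a..(a + η), ‖PhC (t + al δ * I)‖ ^ 2) ≤
      C * (η * δ ^ (-(9 / 2) : ℝ) + δ ^ (-(17 / 4) : ℝ)) := by
  obtain ⟨K, hK, h⟩ := ms_upper hS hM
  have hpi := Real.pi_pos
  refine ⟨16 * Real.pi ^ 4 * K * (2 * Real.exp 9) + 36 * Real.pi ^ 2 * K * (2 * Real.exp 9), by positivity,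
    fun δ a η h0 hδ hη hη1 ha => ?_⟩
  obtain ⟨u2, u1⟩ := h δ a (a + η) h0 hδ (by linarith)
  have hF := F_int_le h0 hδ (a := a) (b := a + η) (by linarith)
  have hδ1 : δ ≤ 1 := by linarith [Real.pi_le_four]
  set D1 := δ ^ (-(9 / 2) : ℝ) with hD1
  set D2 := δ ^ (-(17 / 4) : ℝ) with hD2
  have D1p : 0 < D1 := by positivity
  have D2p : 0 < D2 := by positivity
  have D3 : δ ^ (-(5 / 2) : ℝ) ≤ D1 := Real.rpow_le_rpow_of_exponent_ge h0 hδ1 (by norm_num)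
  have D4 : δ ^ (-(9 / 4) : ℝ) ≤ D2 := Real.rpow_le_rpow_of_exponent_ge h0 hδ1 (by norm_num)
  have hd : Real.exp (2 * (a + η)) - Real.exp (2 * a) ≤ 2 * η * Real.exp (2 * (a + η)) := by
    have := exp_sub_le (a := 2 * a) (b := 2 * (a + η))
    rw [show 2 * (a + η) - 2 * a = 2 * η by ring] at this
    exact this
  have hd0 : 0 ≤ Real.exp (2 * (a + η)) - Real.exp (2 * a) :=
    sub_nonneg.2 (Real.exp_le_exp.2 (by linarith))
  -- the two main products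
  have k2 : Real.exp (7 * (a + η)) * (∫ v in (Real.exp (2 * a))..(Real.exp (2 * (a + η))),
        N 2 (Real.sin (2 * δ)) (Real.cos (2 * δ)) v) ≤ K * (2 * Real.exp 9) * (η * D1 + D2) := by
    have s1 : Real.exp (7 * (a + η)) * ((Real.exp (2 * (a + η)) - Real.exp (2 * a)) *
        (D1 * Real.exp (-(9 * a)))) ≤ 2 * Real.exp 9 * (η * D1) := by
      calc Real.exp (7 * (a + η)) * ((Real.exp (2 * (a + η)) - Real.exp (2 * a)) *
          (D1 * Real.exp (-(9 * a)))) ≤ Real.exp (7 * (a + η)) * ((2 * η * Real.exp (2 * (a + η))) *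
            (D1 * Real.exp (-(9 * a)))) := by gcongr
        _ = 2 * (η * D1) * (Real.exp (7 * (a + η)) * Real.exp (2 * (a + η)) * Real.exp (-(9 * a))) := by ring
        _ = 2 * (η * D1) * Real.exp (9 * η) := by
            rw [← Real.exp_add, ← Real.exp_add]; congr 2; ring
        _ ≤ 2 * (η * D1) * Real.exp 9 := by gcongr; linarith
        _ = _ := by ring
    have s2 : Real.exp (7 * (a + η)) * (D2 * Real.exp (-(17 / 2 * a))) ≤ 2 * Real.exp 9 * D2 := by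
      calc Real.exp (7 * (a + η)) * (D2 * Real.exp (-(17 / 2 * a)))
          = D2 * (Real.exp (7 * (a + η)) * Real.exp (-(17 / 2 * a))) := by ring
        _ = D2 * Real.exp (7 * η - 3 / 2 * a) := by rw [← Real.exp_add]; congr 2; ring
        _ ≤ D2 * Real.exp 9 := by gcongr; linarith
        _ ≤ _ := by nlinarith [mul_pos D2p (Real.exp_pos 9)]
    calc Real.exp (7 * (a + η)) * (∫ v in (Real.exp (2 * a))..(Real.exp (2 * (a + η))),
        N 2 (Real.sin (2 * δ)) (Real.cos (2 * δ)) v) ≤ Real.exp (7 * (a + η)) *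
          (K * ((Real.exp (2 * (a + η)) - Real.exp (2 * a)) * (D1 * Real.exp (-(9 * a))) +
            D2 * Real.exp (-(17 / 2 * a)))) := mul_le_mul_of_nonneg_left u2 (Real.exp_pos _).le
      _ = K * (Real.exp (7 * (a + η)) * ((Real.exp (2 * (a + η)) - Real.exp (2 * a)) *
          (D1 * Real.exp (-(9 * a)))) + Real.exp (7 * (a + η)) * (D2 * Real.exp (-(17 / 2 * a)))) := by ring
      _ ≤ K * (2 * Real.exp 9 * (η * D1) + 2 * Real.exp 9 * D2) := by gcongr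
      _ = _ := by ring
  have k1 : Real.exp (3 * (a + η)) * (∫ v in (Real.exp (2 * a))..(Real.exp (2 * (a + η))),
        N 1 (Real.sin (2 * δ)) (Real.cos (2 * δ)) v) ≤ K * (2 * Real.exp 9) * (η * D1 + D2) := by
    have s1 : Real.exp (3 * (a + η)) * ((Real.exp (2 * (a + η)) - Real.exp (2 * a)) *
        (δ ^ (-(5 / 2) : ℝ) * Real.exp (-(5 * a)))) ≤ 2 * Real.exp 9 * (η * D1) := by
      calc Real.exp (3 * (a + η)) * ((Real.exp (2 * (a + η)) - Real.exp (2 * a)) *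
          (δ ^ (-(5 / 2) : ℝ) * Real.exp (-(5 * a)))) ≤ Real.exp (3 * (a + η)) *
            ((2 * η * Real.exp (2 * (a + η))) * (D1 * Real.exp (-(5 * a)))) := by gcongr
        _ = 2 * (η * D1) * (Real.exp (3 * (a + η)) * Real.exp (2 * (a + η)) * Real.exp (-(5 * a))) := by ring
        _ = 2 * (η * D1) * Real.exp (5 * η) := by
            rw [← Real.exp_add, ← Real.exp_add]; congr 2; ring
        _ ≤ 2 * (η * D1) * Real.exp 9 := by gcongr; linarith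
        _ = _ := by ring
    have s2 : Real.exp (3 * (a + η)) * (δ ^ (-(9 / 4) : ℝ) * Real.exp (-(9 / 2 * a))) ≤
        2 * Real.exp 9 * D2 := by
      calc Real.exp (3 * (a + η)) * (δ ^ (-(9 / 4) : ℝ) * Real.exp (-(9 / 2 * a)))
          ≤ Real.exp (3 * (a + η)) * (D2 * Real.exp (-(9 / 2 * a))) := by gcongr
        _ = D2 * (Real.exp (3 * (a + η)) * Real.exp (-(9 / 2 * a))) := by ring
        _ = D2 * Real.exp (3 * η - 3 / 2 * a) := by rw [← Real.exp_add]; congr 2; ring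
        _ ≤ D2 * Real.exp 9 := by gcongr; linarith
        _ ≤ _ := by nlinarith [mul_pos D2p (Real.exp_pos 9)]
    calc Real.exp (3 * (a + η)) * (∫ v in (Real.exp (2 * a))..(Real.exp (2 * (a + η))),
        N 1 (Real.sin (2 * δ)) (Real.cos (2 * δ)) v) ≤ Real.exp (3 * (a + η)) *
          (K * ((Real.exp (2 * (a + η)) - Real.exp (2 * a)) * (δ ^ (-(5 / 2) : ℝ) * Real.exp (-(5 * a))) +
            δ ^ (-(9 / 4) : ℝ) * Real.exp (-(9 / 2 * a)))) :=
              mul_le_mul_of_nonneg_left u1 (Real.exp_pos _).le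
      _ = K * (Real.exp (3 * (a + η)) * ((Real.exp (2 * (a + η)) - Real.exp (2 * a)) *
          (δ ^ (-(5 / 2) : ℝ) * Real.exp (-(5 * a)))) +
            Real.exp (3 * (a + η)) * (δ ^ (-(9 / 4) : ℝ) * Real.exp (-(9 / 2 * a)))) := by ring
      _ ≤ K * (2 * Real.exp 9 * (η * D1) + 2 * Real.exp 9 * D2) := by gcongr
      _ = _ := by ring
  refine hF.trans ?_
  have w2 := mul_le_mul_of_nonneg_left k2 (by positivity : 0 ≤ 16 * Real.pi ^ 4)
  have w1 := mul_le_mul_of_nonneg_left k1 (by positivity : 0 ≤ 36 * Real.pi ^ 2)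
  have e := add_le_add w2 w1
  refine le_trans (le_of_eq (by ring)) (e.trans (le_of_eq (by ring)))

theorem t_WU (hS : S_SUM) (hM : S_MV) : S_WU := by
  obtain ⟨C, hC, h⟩ := upper_right hS hM
  refine ⟨2 * C, by positivity, fun δ t0 η h0 hδ hη hη1 => ?_⟩
  have hint : ∀ a b : ℝ, IntervalIntegrable (fun t : ℝ => ‖PhC (t + al δ * I)‖ ^ 2) volume a b :=
    fun a b => (continuous_F h0 hδ).intervalIntegrable a b
  have hX : 0 < η * δ ^ (-(9 / 2) : ℝ) + δ ^ (-(17 / 4) : ℝ) := by positivity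
  rcases le_total 0 t0 with ht | ht
  · have := h δ t0 η h0 hδ hη hη1 ht
    nlinarith
  rcases le_total (t0 + η) 0 with ht' | ht'
  · have := h δ (-(t0 + η)) η h0 hδ hη hη1 (by linarith)
    rw [F_refl h0 hδ, show -t0 = -(t0 + η) + η by ring]
    nlinarith
  · have i1 := h δ 0 η h0 hδ hη hη1 le_rfl
    rw [zero_add] at i1
    have hmono : ∀ x : ℝ, 0 ≤ x → x ≤ η → (∫ t in (0 : ℝ)..x, ‖PhC (t + al δ * I)‖ ^ 2) ≤
        ∫ t in (0 : ℝ)..η, ‖PhC (t + al δ * I)‖ ^ 2 := by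
      intro x hx hxη
      rw [← intervalIntegral.integral_add_adjacent_intervals (hint 0 x) (hint x η)]
      have : 0 ≤ ∫ t in x..η, ‖PhC (t + al δ * I)‖ ^ 2 :=
        intervalIntegral.integral_nonneg hxη fun t _ => by positivity
      linarith
    rw [← intervalIntegral.integral_add_adjacent_intervals (hint t0 0) (hint 0 (t0 + η)),
      F_refl h0 hδ t0 0, neg_zero]
    have j1 := hmono (-t0) (by linarith) (by linarith)
    have j2 := hmono (t0 + η) ht' (by linarith)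
    linarith

/-- lower bound for windows in the right half-line -/
lemma lower_right (hS : S_SUM) (hM : S_MV) (a b : ℝ) (ha : 0 ≤ a) (hab : a < b) :
    ∃ c δ0 : ℝ, 0 < c ∧ 0 < δ0 ∧ δ0 ≤ Real.pi / 8 ∧ ∀ δ : ℝ, 0 < δ → δ ≤ δ0 →
      c * δ ^ (-(9 / 2) : ℝ) ≤ ∫ t in a..b, ‖PhC (t + al δ * I)‖ ^ 2 := by
  obtain ⟨K, hK, hU⟩ := ms_upper hS hM
  obtain ⟨C, hC, hMV⟩ := hM
  obtain ⟨C2, hC2, h2⟩ := hS.1 (15 / 2) (by norm_num)
  obtain ⟨c8, hc8, h8⟩ := hS.2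
  have hpi := Real.pi_pos
  have hpi4 := Real.pi_le_four
  have hv0 : 0 < Real.exp (2 * a) := Real.exp_pos _
  have hv1 : 0 < Real.exp (2 * b) := Real.exp_pos _
  have hv01 : 1 ≤ Real.exp (2 * a) := Real.one_le_exp (by linarith)
  have hv11 : 1 ≤ Real.exp (2 * b) := Real.one_le_exp (by linarith)
  have hd : 0 < Real.exp (2 * b) - Real.exp (2 * a) := sub_pos.2 (Real.exp_lt_exp.2 (by linarith))
  set d := Real.exp (2 * b) - Real.exp (2 * a) with hd'
  set v1 := Real.exp (2 * b) with hv1'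
  set c1 : ℝ := 4 * Real.pi ^ 4 * (d * (c8 * (4 * Real.pi * v1) ^ (-(9 / 2) : ℝ))) with hc1
  have hc1p : 0 < c1 := by positivity
  set C1 : ℝ := 4 * Real.pi ^ 4 * (C * C2) + 18 * Real.pi ^ 2 * Real.exp (3 * b) * (K * (d + 1)) with hC1
  have hC1p : 0 < C1 := by positivity
  refine ⟨c1 / 2, min (Real.pi / 8) (min (1 / (2 * v1)) ((c1 / (2 * C1)) ^ (4 : ℕ))), by positivity,
    by positivity, min_le_left _ _, fun δ h0 hδ => ?_⟩
  have hδ1 : δ ≤ Real.pi / 8 := hδ.trans (min_le_left _ _)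
  have hδ2 : δ ≤ 1 / (2 * v1) := hδ.trans ((min_le_right _ _).trans (min_le_left _ _))
  have hδ3 : δ ≤ (c1 / (2 * C1)) ^ (4 : ℕ) := hδ.trans ((min_le_right _ _).trans (min_le_right _ _))
  have hδ4 : δ ≤ 1 := by linarith
  obtain ⟨ht1, ht2, ht3⟩ := theta_bounds h0 hδ1
  have hθ : 0 < Real.sin (2 * δ) := h0.trans_le ht1
  have hF := F_int_ge h0 hδ1 ha hab.le
  obtain ⟨-, u1⟩ := hU δ a b h0 hδ1 hab.le
  have m2 := (hMV 2 (Real.sin (2 * δ)) (Real.cos (2 * δ)) (Real.exp (2 * a)) v1 hθ ht3 hv0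
    (by linarith)).1
  rw [show (4 * ((2 : ℕ) : ℝ)) = 8 by norm_num, show (8 - 1 / 2 : ℝ) = 15 / 2 by norm_num] at m2
  -- lower bound of the diagonal
  have hδv : δ * v1 ≤ 1 / 2 := by
    rw [le_div_iff₀ (by positivity)] at hδ2
    linarith
  have hx1 : 0 < 2 * Real.pi * Real.sin (2 * δ) * v1 := by positivity
  have hx1' : 2 * Real.pi * Real.sin (2 * δ) * v1 ≤ 4 * Real.pi * v1 * δ := by
    calc 2 * Real.pi * Real.sin (2 * δ) * v1 ≤ 2 * Real.pi * (2 * δ) * v1 := by gcongr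
      _ = _ := by ring
  have hx2 : 2 * Real.pi * Real.sin (2 * δ) * v1 ≤ 10 := by
    refine hx1'.trans ?_
    have : 4 * Real.pi * v1 * δ = 4 * Real.pi * (δ * v1) := by ring
    rw [this]
    nlinarith
  have g8 : c8 * ((4 * Real.pi * v1) ^ (-(9 / 2) : ℝ) * δ ^ (-(9 / 2) : ℝ)) ≤
      Dg 8 (2 * Real.pi * Real.sin (2 * δ) * v1) := by
    refine le_trans ?_ (h8 _ hx1 hx2)
    rw [← Real.mul_rpow (by positivity) h0.le]
    exact mul_le_mul_of_nonneg_left (Real.rpow_le_rpow_of_nonpos hx1 hx1' (by norm_num)) hc8.le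
  have hx0 : 0 < 2 * Real.pi * Real.sin (2 * δ) * Real.exp (2 * a) := by positivity
  have g2 := rpow_ray (q := 17 / 4) (D := Dg (15 / 2) (2 * Real.pi * Real.sin (2 * δ) * Real.exp (2 * a)))
    h0 ht1 hv0 (by norm_num) hC2
    (by have := (h2 _ hx0).2; rw [show ((15 / 2 : ℝ) + 1) / 2 = 17 / 4 by norm_num] at this; exact this)
  have D2p : 0 < δ ^ (-(17 / 4) : ℝ) := by positivity
  have D3 : δ ^ (-(5 / 2) : ℝ) ≤ δ ^ (-(17 / 4) : ℝ) :=
    Real.rpow_le_rpow_of_exponent_ge h0 hδ4 (by norm_num)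
  have D4 : δ ^ (-(9 / 4) : ℝ) ≤ δ ^ (-(17 / 4) : ℝ) :=
    Real.rpow_le_rpow_of_exponent_ge h0 hδ4 (by norm_num)
  have g2' : Dg (15 / 2) (2 * Real.pi * Real.sin (2 * δ) * Real.exp (2 * a)) ≤
      C2 * δ ^ (-(17 / 4) : ℝ) := by
    refine g2.trans (mul_le_mul_of_nonneg_left ?_ hC2.le)
    have : Real.exp (2 * a) ^ (-(17 / 4) : ℝ) ≤ 1 :=
      Real.rpow_le_one_of_one_le_of_nonpos hv01 (by norm_num)
    nlinarith
  have u1' : (∫ v in (Real.exp (2 * a))..v1,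
        N 1 (Real.sin (2 * δ)) (Real.cos (2 * δ)) v) ≤ K * (d + 1) * δ ^ (-(17 / 4) : ℝ) := by
    refine u1.trans ?_
    rw [mul_assoc]
    refine mul_le_mul_of_nonneg_left ?_ hK.le
    have e5 : Real.exp (-(5 * a)) ≤ 1 := Real.exp_le_one_iff.2 (by linarith)
    have e9 : Real.exp (-(9 / 2 * a)) ≤ 1 := Real.exp_le_one_iff.2 (by linarith)
    have f5 : δ ^ (-(5 / 2) : ℝ) * Real.exp (-(5 * a)) ≤ δ ^ (-(17 / 4) : ℝ) * 1 := by gcongr
    have f9 : δ ^ (-(9 / 4) : ℝ) * Real.exp (-(9 / 2 * a)) ≤ δ ^ (-(17 / 4) : ℝ) * 1 := by gcongr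
    have f5' := mul_le_mul_of_nonneg_left f5 hd.le
    linarith
  have m2' : d * (c8 * ((4 * Real.pi * v1) ^ (-(9 / 2) : ℝ) * δ ^ (-(9 / 2) : ℝ))) -
      C * (C2 * δ ^ (-(17 / 4) : ℝ)) ≤ ∫ v in (Real.exp (2 * a))..v1,
        N 2 (Real.sin (2 * δ)) (Real.cos (2 * δ)) v := by
    refine le_trans ?_ m2
    exact sub_le_sub (mul_le_mul_of_nonneg_left g8 hd.le) (mul_le_mul_of_nonneg_left g2' hC.le)
  have total : c1 * δ ^ (-(9 / 2) : ℝ) - C1 * δ ^ (-(17 / 4) : ℝ) ≤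
      ∫ t in a..b, ‖PhC (t + al δ * I)‖ ^ 2 := by
    refine le_trans ?_ hF
    have w2 := mul_le_mul_of_nonneg_left m2' (by positivity : 0 ≤ 4 * Real.pi ^ 4)
    have w1 := mul_le_mul_of_nonneg_left u1' (by positivity : 0 ≤ 18 * Real.pi ^ 2 * Real.exp (3 * b))
    refine le_trans (le_of_eq ?_) (sub_le_sub w2 w1)
    rw [hc1, hC1]; ring
  refine le_trans ?_ total
  -- `C1 δ^{-17/4} ≤ (c1/2) δ^{-9/2}`
  have hq : δ ^ (1 / 4 : ℝ) ≤ c1 / (2 * C1) := by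
    have h3 : ((c1 / (2 * C1)) ^ (4 : ℕ)) ^ (1 / 4 : ℝ) = c1 / (2 * C1) := by
      rw [← Real.rpow_natCast, ← Real.rpow_mul (by positivity)]
      norm_num
    rw [← h3]
    exact Real.rpow_le_rpow h0.le hδ3 (by norm_num)
  have hsplit : δ ^ (-(17 / 4) : ℝ) = δ ^ (-(9 / 2) : ℝ) * δ ^ (1 / 4 : ℝ) := by
    rw [← Real.rpow_add h0]; norm_num
  rw [hsplit]
  have D1p : 0 < δ ^ (-(9 / 2) : ℝ) := by positivity
  have h5 : C1 * δ ^ (1 / 4 : ℝ) ≤ c1 / 2 := by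
    calc C1 * δ ^ (1 / 4 : ℝ) ≤ C1 * (c1 / (2 * C1)) := by gcongr
      _ = c1 / 2 := by field_simp
  have h6 := mul_le_mul_of_nonneg_left h5 D1p.le
  linarith

theorem t_WL (hS : S_SUM) (hM : S_MV) : S_WL := by
  intro t0 η hη
  rcases lt_or_ge 0 (t0 + η) with h | h
  · obtain ⟨c, δ0, hc, h0, hle, hb⟩ := lower_right hS hM (max t0 0) (t0 + η) (le_max_right _ _)
      (max_lt (by linarith) h)
    refine ⟨c, δ0, hc, h0, fun δ hδ hδ0 => (hb δ hδ hδ0).trans ?_⟩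
    have hint : ∀ a b : ℝ, IntervalIntegrable (fun t : ℝ => ‖PhC (t + al δ * I)‖ ^ 2) volume a b :=
      fun a b => (continuous_F hδ (hδ0.trans hle)).intervalIntegrable a b
    rw [← intervalIntegral.integral_add_adjacent_intervals (hint t0 (max t0 0))
      (hint (max t0 0) (t0 + η))]
    have : 0 ≤ ∫ t in t0..(max t0 0), ‖PhC (t + al δ * I)‖ ^ 2 :=
      intervalIntegral.integral_nonneg (le_max_left _ _) fun t _ => by positivity
    linarith
  · obtain ⟨c, δ0, hc, h0, hle, hb⟩ := lower_right hS hM (-(t0 + η)) (-t0) (by linarith) (by linarith)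
    refine ⟨c, δ0, hc, h0, fun δ hδ hδ0 => (hb δ hδ hδ0).trans ?_⟩
    rw [F_refl hδ (hδ0.trans hle) t0 (t0 + η)]

theorem t_WIN : S_WIN := fun hS hM => ⟨t_WU hS hM, t_WL hS hM⟩

end Pool.Agent.H51.RZ474.WIN
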